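import Pool.Agent.R110.MT.Sym
import Pool.Agent.R110.MT.Good2

/-!
# Symmetry of the values of the monotone triangle polynomial at the rows `(i, 2, ..., n+1, 1, ..., n)`

`IsAlpha m P`: the rational polynomial `P` in `m` variables counts the monotone triangles with
bottom row `k`, for every strictly increasing integer row `k` of length `m`.

The symmetry itself is the lemma `wrow_symm` of the starting library (`Pool.Agent.R110.MT.Sym`).
-/

namespace Pool.Agent.Results.MP_16be1b_co.SymmetricRow

open Pool.Agent.R110.MT (IsAlpha)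

/-- the row `(i, 2, ..., n + 1, 1, ..., n)` of length `2 n + 1` -/
def row (n : ℕ) (i : ℤ) (j : Fin (2 * n + 1)) : ℤ :=
  if (j : ℕ) = 0 then i else if (j : ℕ) ≤ n then (j : ℤ) + 1 else (j : ℤ) - n

theorem result (n : ℕ) (i : ℤ) :
    ∃ P : MvPolynomial (Fin (2 * n + 1)) ℚ, IsAlpha (2 * n + 1) P ∧
      (∀ P' : MvPolynomial (Fin (2 * n + 1)) ℚ, IsAlpha (2 * n + 1) P' → P' = P) ∧
      MvPolynomial.eval (fun j => (row n i j : ℚ)) P =
        MvPolynomial.eval (fun j => (row n (3 * n + 3 - i) j : ℚ)) P := by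
  obtain ⟨P, hP, -⟩ := Pool.Agent.R110.MT.exists_alpha (2 * n + 1)
  exact ⟨P, hP, fun P' hP' => hP.unique hP', Pool.Agent.R110.MT.wrow_symm hP i⟩

end Pool.Agent.Results.MP_16be1b_co.SymmetricRow
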